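import Mathlib
import Pool.Agent.H85.PC.Lower
import Pool.Agent.H85.PC.Bound
import Pool.Graph.R_seed8.Results.MP_7268ce_co.GrowthRateTwo

/-!
# Bounds for the linear piercing constant in every dimension
-/

set_option autoImplicit false

open Filter Topology

namespace Pool.Agent.Results.MP_b75ab8_co.GrowthBounds

open Pool.Agent.H85.PC
open Pool.Agent.Results.MP_7268ce_co.GrowthRateTwo (pBox)

/-- For every `d ≥ 1` and `1 ≤ k ≤ n` a `k`-piercing partition of `[n]^d` has at least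
`1 + (k - 1) exp (√(2 d + 2) - 2)` boxes; the limit `p(d, k) = lim_n p(n, d, k)` exists and is at most
`exp (1500 d^(2/3) (log (d + 1))^(4/3)) k + R` with `R` depending only on `d`; hence
`exp (√(2 d + 2) - 2) ≤ C_d ≤ exp (1500 d^(2/3) (log (d + 1))^(4/3))` for
`C_d = lim_k p(d, k) / k`. -/
theorem result (d : ℕ) (hd : 1 ≤ d) :
    (∀ n k : ℕ, 1 ≤ k → k ≤ n →
      1 + ((k : ℝ) - 1) * Real.exp (√(2 * (d : ℝ) + 2) - 2) ≤ (pBox n d k : ℝ)) ∧
    ∃ p : ℕ → ℝ, (∀ k : ℕ, 1 ≤ k → Tendsto (fun n : ℕ => (pBox n d k : ℝ)) atTop (𝓝 (p k))) ∧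
      (∀ k : ℕ, 1 ≤ k → 1 + ((k : ℝ) - 1) * Real.exp (√(2 * (d : ℝ) + 2) - 2) ≤ p k) ∧
      (∃ R : ℝ, ∀ k : ℕ, 1 ≤ k →
        p k ≤ Real.exp (1500 * (d : ℝ) ^ (2 / 3 : ℝ) * Real.log (d + 1) ^ (4 / 3 : ℝ)) * k + R) ∧
      ∀ C : ℝ, Tendsto (fun k : ℕ => p k / k) atTop (𝓝 C) →
        Real.exp (√(2 * (d : ℝ) + 2) - 2) ≤ C ∧
        C ≤ Real.exp (1500 * (d : ℝ) ^ (2 / 3 : ℝ) * Real.log (d + 1) ^ (4 / 3 : ℝ)) := by
  refine ⟨fun n k hk hn => pBox_lower hd hk hn, ?_⟩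
  obtain ⟨M, hM1, hM2⟩ := fam_all d hd
  obtain ⟨R, hR⟩ := limit_of_fam hM1
  set E : ℝ := Real.exp (√(2 * (d : ℝ) + 2) - 2) with hE
  set U : ℝ := Real.exp (1500 * (d : ℝ) ^ (2 / 3 : ℝ) * Real.log (d + 1) ^ (4 / 3 : ℝ)) with hU
  have h : ∀ k : ℕ, ∃ L : ℝ, 1 ≤ k → Tendsto (fun n : ℕ => (pBox n d k : ℝ)) atTop (𝓝 L) ∧
      L ≤ M * k + R := by
    intro k
    by_cases hk : 1 ≤ k
    · obtain ⟨L, hL⟩ := hR k hk
      exact ⟨L, fun _ => hL⟩
    · exact ⟨0, fun hk' => absurd hk' hk⟩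
  choose p hp using h
  have hlow : ∀ k : ℕ, 1 ≤ k → 1 + ((k : ℝ) - 1) * E ≤ p k := by
    intro k hk
    refine ge_of_tendsto (hp k hk).1 ?_
    filter_upwards [eventually_ge_atTop k] with n hn
    exact pBox_lower hd hk hn
  have hupp : ∀ k : ℕ, 1 ≤ k → p k ≤ U * k + R := by
    intro k hk
    refine (hp k hk).2.trans ?_
    have hk0 : (0 : ℝ) ≤ k := Nat.cast_nonneg k
    have := mul_le_mul_of_nonneg_right hM2 hk0
    linarith
  refine ⟨p, fun k hk => (hp k hk).1, hlow, ⟨R, hupp⟩, ?_⟩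
  intro C hC
  constructor
  · have h2 : Tendsto (fun k : ℕ => E + (1 - E) / (k : ℝ)) atTop (𝓝 (E + 0)) :=
      tendsto_const_nhds.add (tendsto_const_div_atTop_nhds_zero_nat _)
    rw [add_zero] at h2
    refine le_of_tendsto_of_tendsto h2 hC ?_
    filter_upwards [eventually_ge_atTop 1] with k hk
    have hk' : (0 : ℝ) < k := by exact_mod_cast hk
    rw [le_div_iff₀ hk', add_mul, div_mul_cancel₀ _ hk'.ne']
    have := hlow k hk
    linarith
  · have h2 : Tendsto (fun k : ℕ => U + R / (k : ℝ)) atTop (𝓝 (U + 0)) :=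
      tendsto_const_nhds.add (tendsto_const_div_atTop_nhds_zero_nat _)
    rw [add_zero] at h2
    refine le_of_tendsto_of_tendsto hC h2 ?_
    filter_upwards [eventually_ge_atTop 1] with k hk
    have hk' : (0 : ℝ) < k := by exact_mod_cast hk
    rw [div_le_iff₀ hk', add_mul, div_mul_cancel₀ _ hk'.ne']
    exact hupp k hk

end Pool.Agent.Results.MP_b75ab8_co.GrowthBounds
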